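import Pool.Agent.Helper20_TF.Tool

/-! Squad TF (MP_589914_co), row CZE (helper20): non-concentration. -/

set_option autoImplicit false

namespace Pool.Agent.TF.H20

variable {G : Type} [AddCommGroup G] [Fintype G] [DecidableEq G] {n : ℕ} {F : Fam G n}

theorem Base.mono' {l e e' : ℝ} (h : Base F l e) (he : e ≤ e') : Base F l e' where
  e0 := h.e0.trans he
  hN := h.hN
  hn := by linarith [h.hn]
  hlab := fun σ k => by linarith [h.hlab σ k]
  hW := h.hW

theorem log_card_fun {m : ℕ} (S : Type) [Fintype S] [DecidableEq S] (hS : Fintype.card S = m) :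
    Real.log (Fintype.card (S → Fin n)) = m * Real.log n := by
  rw [Fintype.card_fun, Fintype.card_fin, hS, Nat.cast_pow, Real.log_pow]

/-- the pair of members is near maximal, so `y` has few choices given `x` and the members -/
theorem near (L : Lib) (hUPP : UppStmt) (hPR2 : Pr2Stmt) {l e V κ : ℝ} {Ω : Type} [Fintype Ω]
    {P : Law Ω} {x y : Ω → G} {h : Ω → Fin n} {c : Ω → Fin 2 → Fin n}
    (M : Mem F l e V κ 2 P x y h c) : P.C y (fun ω => (x ω, c ω)) ≤ l / 4 + 140 * e := by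
  have hB := M.base
  have he := hB.e0
  have hrel := M.rel
  obtain ⟨hu1, hu2⟩ := hUPP G n F l e Ω P x y (fun ω => c ω 0) (fun ω => c ω 1) hB
    (by
      intro ω h0
      obtain ⟨-, -, h1, h2, -, -, h3, -, -⟩ := hrel ω h0 0
      obtain ⟨-, -, h1', h2', -, -, h3', -, -⟩ := hrel ω h0 1
      exact ⟨h1, h1', h2, h2', h3, h3'⟩)
  have h2 := M.h2 0 1 (by decide)
  have hbig := M.big
  have h3 : P.H (fun ω => ((x ω, y ω, h ω), (c ω 0, c ω 1))) ≤
      Real.log n + P.H (fun ω => ((x ω, y ω), (c ω 0, c ω 1))) := by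
    have h4 := C_le_card L (P := P) h (fun ω => ((x ω, y ω), (c ω 0, c ω 1)))
    rw [Fintype.card_fin] at h4
    have h5 : P.H (fun ω => ((x ω, y ω, h ω), (c ω 0, c ω 1))) ≤
        P.H (fun ω => (h ω, ((x ω, y ω), (c ω 0, c ω 1)))) := by
      apply H_mono L
      intro ω ω' _ _ hh
      simp only [Prod.mk.injEq] at hh ⊢
      tauto
    unfold Law.C at h4
    linarith
  have hn := hB.hn
  have h6 : 2 * l - 7 * e ≤ P.H (fun ω => (x ω, (c ω 0, c ω 1))) := by linarith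
  have hP := hPR2 G n F l (7 * e) Ω P x (fun ω => c ω 0) (fun ω => c ω 1)
    (Base.mono' hB (by linarith))
    (by
      intro ω h0
      obtain ⟨-, -, h1, h2, -, -, h3, -, -⟩ := hrel ω h0 0
      obtain ⟨-, -, h1', h2', -, -, h3', -, -⟩ := hrel ω h0 1
      exact ⟨h1, h1'⟩) h6
  have h7 := hP.cnt false false
  have h8 : P.C y (fun ω => (x ω, c ω)) ≤ P.C y (fun ω => (x ω, (c ω 0, c ω 1))) := by
    apply C_anti L
    intro ω ω' _ _ hh
    simp only [Prod.mk.injEq] at hh ⊢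
    exact ⟨hh.1, by rw [hh.2], by rw [hh.2]⟩
  linarith

section main

variable {Ω : Type} [Fintype Ω] {P : Law Ω} {X Y : Ω → G} {Cc : Ω → Fin 2 → Fin n}
  {hs : Ω → Fin 5 → Fin n} {l e c0 : ℝ}

theorem f8 (L : Lib) (hB : Base F l e)
    (TOT : 19 * l / 4 - e - 4 * c0 ≤ P.H (fun ω => (hs ω, ((X ω, Y ω), Cc ω))))
    (YC : P.C Y (fun ω => (X ω, Cc ω)) ≤ l / 4 + 140 * e) :
    7 * l / 2 - 4 * c0 - 143 * e ≤ P.H (fun ω => (X ω, hs ω)) := by
  have h1 : P.H (fun ω => (hs ω, ((X ω, Y ω), Cc ω))) ≤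
      P.H (fun ω => ((Y ω, Cc ω), (X ω, hs ω))) := by
    apply H_mono L
    intro ω ω' _ _ hh
    simp only [Prod.mk.injEq] at hh ⊢
    tauto
  have h2 := C_chain L (P := P) Y Cc (fun ω => (X ω, hs ω))
  have h3 : P.C (fun ω => (Y ω, Cc ω)) (fun ω => (X ω, hs ω)) =
      P.H (fun ω => ((Y ω, Cc ω), (X ω, hs ω))) - P.H (fun ω => (X ω, hs ω)) := rfl
  have h4 : P.C Y (fun ω => (Cc ω, (X ω, hs ω))) ≤ P.C Y (fun ω => (X ω, Cc ω)) := by
    apply C_anti L
    intro ω ω' _ _ hh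
    simp only [Prod.mk.injEq] at hh ⊢
    tauto
  have h5 := C_le_card L (P := P) Cc (fun ω => (X ω, hs ω))
  rw [log_card_fun (n := n) (Fin 2) (Fintype.card_fin 2)] at h5
  have hn := hB.hn
  push_cast at h5
  linarith

theorem f12 (L : Lib) (hB : Base F l e)
    (TOT : 19 * l / 4 - e - 4 * c0 ≤ P.H (fun ω => (hs ω, ((X ω, Y ω), Cc ω)))) :
    l / 4 - 4 * c0 - 8 * e ≤ P.C Y (fun ω => (X ω, hs ω)) := by
  have h1 : P.H (fun ω => (hs ω, ((X ω, Y ω), Cc ω))) ≤
      P.H (fun ω => ((Cc ω, Y ω), (X ω, hs ω))) := by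
    apply H_mono L
    intro ω ω' _ _ hh
    simp only [Prod.mk.injEq] at hh ⊢
    tauto
  have h2 := C_chain L (P := P) Cc Y (fun ω => (X ω, hs ω))
  have h3 : P.C (fun ω => (Cc ω, Y ω)) (fun ω => (X ω, hs ω)) =
      P.H (fun ω => ((Cc ω, Y ω), (X ω, hs ω))) - P.H (fun ω => (X ω, hs ω)) := rfl
  have h5 := C_le_card L (P := P) Cc (fun ω => (Y ω, (X ω, hs ω)))
  rw [log_card_fun (n := n) (Fin 2) (Fintype.card_fin 2)] at h5
  have h6 := C_le_card L (P := P) X hs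
  have h7 := H_le_card L (P := P) hs
  rw [log_card_fun (n := n) (Fin 5) (Fintype.card_fin 5)] at h7
  have h8 : P.C X hs = P.H (fun ω => (X ω, hs ω)) - P.H hs := rfl
  have hn := hB.hn
  have hN := hB.hN
  push_cast at h5 h7
  linarith

theorem thin (L : Lib) (hB : Base F l e) (hc0 : -e ≤ c0)
    (h78 : 7 * l / 2 - 4 * c0 - 143 * e ≤ P.H (fun ω => (X ω, hs ω)))
    (supp : ∀ ω, P.p ω ≠ 0 → ∀ i, X ω ∈ F.D (hs ω i)) :
    Thin F l (4 * c0 + 146 * e) (4 * c0 + 149 * e) 5 P X hs where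
  base := Base.mono' hB (by linarith [hB.e0])
  f0 := by linarith [hB.e0]
  supp := supp
  pair := by
    intro i j hij
    have hcard : Fintype.card {k : Fin 5 // k ≠ i ∧ k ≠ j} = 3 := by
      revert hij
      revert i j
      decide
    have h1 : P.H (fun ω => (X ω, hs ω)) ≤
        P.H (fun ω => ((fun k : {k : Fin 5 // k ≠ i ∧ k ≠ j} => hs ω k),
          (X ω, (hs ω i, hs ω j)))) := by
      apply H_mono L
      intro ω ω' _ _ hh
      simp only [Prod.mk.injEq] at hh ⊢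
      refine ⟨hh.2.1, ?_⟩
      funext k
      by_cases hki : k = i
      · rw [hki]
        exact hh.2.2.1
      · by_cases hkj : k = j
        · rw [hkj]
          exact hh.2.2.2
        · exact congrFun hh.1 ⟨k, hki, hkj⟩
    have h2 := C_le_card L (P := P) (fun ω => (fun k : {k : Fin 5 // k ≠ i ∧ k ≠ j} => hs ω k))
      (fun ω => (X ω, (hs ω i, hs ω j)))
    rw [log_card_fun (n := n) _ hcard] at h2
    unfold Law.C at h2
    have hn := hB.hn
    push_cast at h2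
    linarith
  move := by
    intro i
    have h1 : P.H (fun ω => (X ω, hs ω)) ≤
        P.H (fun ω => (F.b (hs ω i) (X ω), (F.a (hs ω i) (X ω), hs ω))) := by
      apply H_mono L
      intro ω ω' h0 h0' hh
      simp only [Prod.mk.injEq] at hh ⊢
      refine ⟨?_, hh.2.2⟩
      have h2 := F.sub (hs ω i) (X ω) (supp ω h0 i)
      have h3 := F.sub (hs ω' i) (X ω') (supp ω' h0' i)
      rw [← h2, ← h3, hh.1, hh.2.1]
    have h2 : P.C (fun ω => F.a (hs ω i) (X ω)) hs ≤ l / 2 + e := by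
      have h3 : P.C (fun ω => F.a (hs ω i) (X ω)) hs ≤
          P.C (fun ω => F.a (hs ω i) (X ω)) (fun ω => hs ω i) := by
        apply C_anti L
        intro ω ω' _ _ hh
        exact congrFun hh i
      have h4 := C_gib L (P := P) (fun ω => F.a (hs ω i) (X ω)) (fun ω => hs ω i)
        (fun k => (F.D k).image (F.lab true k))
        (fun ω h0 => Finset.mem_image.2 ⟨X ω, supp ω h0 i, rfl⟩)
      have h5 : P.E (fun ω => Real.log (((F.D (hs ω i)).image (F.lab true (hs ω i))).card)) ≤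
          l / 2 + e := E_le fun ω _ => hB.hlab true (hs ω i)
      linarith
    have h7 := H_le_card L (P := P) hs
    rw [log_card_fun (n := n) (Fin 5) (Fintype.card_fin 5)] at h7
    unfold Law.C at h2 ⊢
    have hn := hB.hn
    push_cast at h7
    linarith

/-- the number of points with the same labels as `X` for all classes -/
theorem cell (L : Lib) (hB : Base F l e) (σ : Bool) {Z : Ω → G}
    (supp : ∀ ω, P.p ω ≠ 0 → ∀ i, X ω ∈ F.D (hs ω i))
    (suppZ : ∀ ω, P.p ω ≠ 0 → ∀ i, Z ω ∈ F.D (hs ω i))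
    (hlab : ∀ ω, P.p ω ≠ 0 → ∀ i, F.lab σ (hs ω i) (Z ω) = F.lab σ (hs ω i) (X ω)) :
    P.C Z (fun ω => (X ω, hs ω)) + P.C (fun ω i => F.lab σ (hs ω i) (X ω)) hs ≤ l := by
  classical
  let cl : (Fin 5 → Fin n) → (Fin 5 → G) → Finset G := fun k β =>
    Finset.univ.filter fun v => (∀ i, v ∈ F.D (k i)) ∧ (fun i => F.lab σ (k i) v) = β
  have h1 := C_gib L (P := P) Z (fun ω => (X ω, hs ω))
    (fun u => cl u.2 (fun i => F.lab σ (u.2 i) u.1))
    (by
      intro ω h0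
      rw [Finset.mem_filter]
      exact ⟨Finset.mem_univ _, suppZ ω h0, funext fun i => hlab ω h0 i⟩)
  have h2 := L.gic Ω (Fin 5 → G) (Fin 5 → Fin n) P (fun ω i => F.lab σ (hs ω i) (X ω)) hs
    (fun _ => Finset.univ) (fun k β => ((cl k β).card : ℝ)) (fun _ _ _ => Nat.cast_nonneg _)
    (by
      intro ω h0
      refine ⟨Finset.mem_univ _, ?_⟩
      have h3 : X ω ∈ cl (hs ω) (fun i => F.lab σ (hs ω i) (X ω)) := by
        rw [Finset.mem_filter]
        exact ⟨Finset.mem_univ _, supp ω h0, rfl⟩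
      exact_mod_cast Finset.card_pos.2 ⟨_, h3⟩)
  have h3 : P.E (fun ω => Real.log (∑ β : Fin 5 → G, ((cl (hs ω) β).card : ℝ))) ≤ l := by
    apply E_le
    intro ω h0
    rw [← hB.hN]
    have h4 : ∑ β : Fin 5 → G, (cl (hs ω) β).card ≤ Fintype.card G := by
      rw [← Finset.card_biUnion]
      · exact Finset.card_le_univ _
      · intro β _ β' _ hne
        rw [Function.onFun, Finset.disjoint_left]
        intro v hv hv'
        rw [Finset.mem_filter] at hv hv'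
        exact hne (hv.2.2.symm.trans hv'.2.2)
    have h5 : X ω ∈ cl (hs ω) (fun i => F.lab σ (hs ω i) (X ω)) := by
      rw [Finset.mem_filter]
      exact ⟨Finset.mem_univ _, supp ω h0, rfl⟩
    have h6 : 0 < ∑ β : Fin 5 → G, (cl (hs ω) β).card := by
      refine lt_of_lt_of_le (Finset.card_pos.2 ⟨_, h5⟩)
        (Finset.single_le_sum (f := fun β => (cl (hs ω) β).card) (fun _ _ => Nat.zero_le _)
          (Finset.mem_univ _))
    apply Real.log_le_log
    · exact_mod_cast h6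
    · exact_mod_cast h4
  linarith

end main

/-- ROW CZE. -/
theorem cze (L : Lib) (hUPP : UppStmt) (hPR2 : Pr2Stmt) (hPLB : PlbStmt) : CzeStmt := by
  intro G _ _ _ n F l e V κ c0 Ω _ P x y h c M hC
  have hB := M.base
  have he := hB.e0
  have hn := hB.hn
  have hc0 : -e ≤ c0 := by
    have h1 := C_le_card L (P := P) h
      (fun ω => (x ω, y ω, F.a (h ω) (y ω) - F.b (h ω) (x ω)))
    rw [Fintype.card_fin, hC] at h1
    linarith
  obtain ⟨Ω', hΩ', P', π, κs, hπ, hsupp, hcop, hH⟩ := L.ext Ω (Fin n) (G × G × G) P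
    (fun ω => (x ω, y ω, F.a (h ω) (y ω) - F.b (h ω) (x ω))) h 4
  rw [hC] at hH
  obtain ⟨X, hX⟩ : ∃ X : Ω' → G, X = fun ω => x (π ω) := ⟨_, rfl⟩
  obtain ⟨Y, hY⟩ : ∃ Y : Ω' → G, Y = fun ω => y (π ω) := ⟨_, rfl⟩
  obtain ⟨Z, hZ⟩ : ∃ Z : Ω' → G, Z = fun ω => F.a (h (π ω)) (y (π ω)) - F.b (h (π ω)) (x (π ω)) :=
    ⟨_, rfl⟩
  obtain ⟨Cc, hCc⟩ : ∃ Cc : Ω' → Fin 2 → Fin n, Cc = fun ω => c (π ω) := ⟨_, rfl⟩
  obtain ⟨hs, hhs⟩ : ∃ hs : Ω' → Fin 5 → Fin n, hs = fun ω => Fin.cons (h (π ω)) (κs ω) :=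
    ⟨_, rfl⟩
  have TOT : 19 * l / 4 - e - 4 * c0 ≤ P'.H (fun ω => (hs ω, ((X ω, Y ω), Cc ω))) := by
    have h1 : P'.H (fun ω => (κs ω, ((x (π ω), y (π ω), h (π ω)), c (π ω)))) ≤
        P'.H (fun ω => (hs ω, ((X ω, Y ω), Cc ω))) := by
      apply H_mono L
      intro ω ω' _ _ hh
      simp only [Prod.mk.injEq, hhs, hX, hY, hCc] at hh ⊢
      obtain ⟨h2, ⟨h3, h4⟩, h5⟩ := hh
      have h6 := congrFun h2 0
      simp only [Fin.cons_zero] at h6
      refine ⟨?_, ⟨h3, h4, h6⟩, h5⟩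
      funext i
      have h7 := congrFun h2 i.succ
      simp only [Fin.cons_succ] at h7
      exact h7
    have h2 : P'.C κs (fun ω => π ω) ≤
        P'.C κs (fun ω => ((x (π ω), y (π ω), h (π ω)), c (π ω))) := by
      apply C_anti L
      intro ω ω' _ _ hh
      have h3 : π ω = π ω' := hh
      simp only [h3]
    have h3 : P'.H (fun ω => (π ω, κs ω)) ≤ P'.H (fun ω => (κs ω, π ω)) := by
      apply H_mono L
      intro ω ω' _ _ hh
      simp only [Prod.mk.injEq] at hh ⊢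
      exact ⟨hh.2, hh.1⟩
    have h4 : P'.H (fun ω => π ω) = P.H (fun ω => ω) := H_comp L hπ (fun ω => ω)
    have h5 : P'.H (fun ω => ((x (π ω), y (π ω), h (π ω)), c (π ω))) =
        P.H (fun ω => ((x ω, y ω, h ω), c ω)) :=
      H_comp L hπ (fun ω => ((x ω, y ω, h ω), c ω))
    have h6 := M.hR
    have h7 := M.big
    unfold Law.C at h2
    push_cast at h6 hH
    linarith
  have YC : P'.C Y (fun ω => (X ω, Cc ω)) ≤ l / 4 + 140 * e := by
    have h1 : P'.C Y (fun ω => (X ω, Cc ω)) = P.C y (fun ω => (x ω, c ω)) := by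
      rw [hX, hY, hCc]
      exact C_comp L hπ y (fun ω => (x ω, c ω))
    rw [h1]
    exact near L hUPP hPR2 M
  have hrel : ∀ ω, P'.p ω ≠ 0 → ∀ i, X ω ∈ F.D (hs ω i) ∧ Y ω ∈ F.D (hs ω i) ∧
      Z ω = F.a (hs ω i) (Y ω) - F.b (hs ω i) (X ω) := by
    intro ω h0 i
    rw [hX, hY, hZ, hhs]
    refine Fin.cases ?_ (fun j => ?_) i
    · have h1 := M.rel (π ω) (hsupp ω h0) 0
      simp only [Fin.cons_zero]
      exact ⟨h1.1, h1.2.1, trivial⟩
    · obtain ⟨ω0, h1, h2⟩ := L.sam.2.2.2.2 _ _ _ P' P _ _ (hcop j) ω h0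
      simp only [Prod.mk.injEq] at h2
      obtain ⟨⟨h3, h4, h5⟩, h6⟩ := h2
      have h7 := M.rel ω0 h1 0
      simp only [Fin.cons_succ]
      rw [← h6, ← h3, ← h4]
      refine ⟨h7.1, h7.2.1, ?_⟩
      rw [h3, h4, ← h5, h3, h4]
  have supp : ∀ ω, P'.p ω ≠ 0 → ∀ i, X ω ∈ F.D (hs ω i) := fun ω h0 i => (hrel ω h0 i).1
  have h78 := f8 L hB TOT YC
  have hT := thin L hB hc0 h78 supp
  have hplb := hPLB G n F l (4 * c0 + 146 * e) (4 * c0 + 149 * e) Ω' P' X hs hT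
  have h12 := f12 L hB TOT
  have hcellZ := cell L (P := P') (X := X) (hs := hs) (Z := Z) hB false supp
    (by
      intro ω h0 i
      obtain ⟨h1, h2, h3⟩ := hrel ω h0 i
      rw [h3]
      exact F.mixD _ _ _ h2 h1)
    (by
      intro ω h0 i
      obtain ⟨h1, h2, h3⟩ := hrel ω h0 i
      rw [h3]
      exact F.mixb _ _ _ h2 h1)
  have hW : ∀ ω, P'.p ω ≠ 0 → ∀ i, X ω + Y ω - Z ω =
      F.a (hs ω i) (X ω) - F.b (hs ω i) (Y ω) := by
    intro ω h0 i
    obtain ⟨h1, h2, h3⟩ := hrel ω h0 i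
    have h4 := F.sub _ _ h1
    have h5 := F.sub _ _ h2
    calc X ω + Y ω - Z ω = (F.a (hs ω i) (X ω) - F.b (hs ω i) (X ω)) +
          (F.a (hs ω i) (Y ω) - F.b (hs ω i) (Y ω)) -
          (F.a (hs ω i) (Y ω) - F.b (hs ω i) (X ω)) := by rw [h4, h5, h3]
      _ = F.a (hs ω i) (X ω) - F.b (hs ω i) (Y ω) := by abel
  have hcellW := cell L (P := P') (X := X) (hs := hs) (Z := fun ω => X ω + Y ω - Z ω) hB true supp
    (by
      intro ω h0 i
      obtain ⟨h1, h2, h3⟩ := hrel ω h0 i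
      rw [hW ω h0 i]
      exact F.mixD _ _ _ h1 h2)
    (by
      intro ω h0 i
      obtain ⟨h1, h2, h3⟩ := hrel ω h0 i
      rw [hW ω h0 i]
      exact F.mixa _ _ _ h1 h2)
  have hsplit : P'.C Y (fun ω => (X ω, hs ω)) ≤ P'.C Z (fun ω => (X ω, hs ω)) +
      P'.C (fun ω => X ω + Y ω - Z ω) (fun ω => (X ω, hs ω)) := by
    refine le_trans ?_ (C_pair L Z (fun ω => X ω + Y ω - Z ω) (fun ω => (X ω, hs ω)))
    apply C_mono L
    intro ω ω' _ _ hh
    simp only [Prod.mk.injEq] at hh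
    obtain ⟨⟨h1, h2⟩, h3, -⟩ := hh
    have h4 : Y ω = (X ω + Y ω - Z ω) + Z ω - X ω := by abel
    have h5 : Y ω' = (X ω' + Y ω' - Z ω') + Z ω' - X ω' := by abel
    rw [h4, h5, h2, h1, h3]
  have hlog : P'.H hs ≤ 5 * Real.log n := by
    have h7 := H_le_card L (P := P') hs
    rw [log_card_fun (n := n) (Fin 5) (Fintype.card_fin 5)] at h7
    push_cast at h7
    exact h7
  have hlow : ∀ σ : Bool, l - 4 * c0 - 148 * e -
      P'.C X (fun ω => ((fun i => F.lab σ (hs ω i) (X ω)), hs ω)) ≤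
      P'.C (fun ω i => F.lab σ (hs ω i) (X ω)) hs := by
    intro σ
    have h1 : P'.H (fun ω => (X ω, hs ω)) ≤
        P'.H (fun ω => (X ω, ((fun i => F.lab σ (hs ω i) (X ω)), hs ω))) := by
      apply H_mono L
      intro ω ω' _ _ hh
      simp only [Prod.mk.injEq] at hh ⊢
      exact ⟨hh.1, hh.2.2⟩
    unfold Law.C
    linarith
  have hb := hlow false
  have ha := hlow true
  have ea : (fun ω => ((fun i => F.lab true (hs ω i) (X ω)), hs ω)) =
      (fun ω => ((fun i => F.a (hs ω i) (X ω)), hs ω)) := rfl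
  have eb : (fun ω => ((fun i => F.lab false (hs ω i) (X ω)), hs ω)) =
      (fun ω => ((fun i => F.b (hs ω i) (X ω)), hs ω)) := rfl
  rw [ea] at ha
  rw [eb] at hb
  norm_num at hplb ⊢
  linarith

end Pool.Agent.TF.H20
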