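import Pool.Agent.TF.Stmts

/-! Squad TF (MP_589914_co), row MON (helper20): entropy is monotone and nonnegative. -/

set_option autoImplicit false

namespace Pool.Agent.TF.H20

theorem p_le_q {Ω S : Type} [Fintype Ω] (P : Law Ω) (X : Ω → S) (ω : Ω) :
    P.p ω ≤ P.q X (X ω) := by
  classical
  unfold Law.q
  have h := Finset.single_le_sum (f := fun ω' => if X ω' = X ω then P.p ω' else 0)
    (fun ω' _ => by
      split_ifs
      · exact P.nn ω'
      · exact le_rfl) (Finset.mem_univ ω)
  rw [if_pos rfl] at h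
  exact h

theorem q_nonneg {Ω S : Type} [Fintype Ω] (P : Law Ω) (X : Ω → S) (s : S) :
    0 ≤ P.q X s := by
  classical
  unfold Law.q
  refine Finset.sum_nonneg fun ω _ => ?_
  split_ifs
  · exact P.nn ω
  · exact le_rfl

theorem q_le_one {Ω S : Type} [Fintype Ω] (P : Law Ω) (X : Ω → S) (s : S) :
    P.q X s ≤ 1 := by
  classical
  unfold Law.q
  rw [← P.one]
  refine Finset.sum_le_sum fun ω _ => ?_
  split_ifs
  · exact le_rfl
  · exact P.nn ω

/-- ROW MON. -/
theorem mon : MonStmt := by
  classical
  refine ⟨?_, ?_⟩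
  · intro Ω S T _ P X Y hdet
    unfold Law.H
    apply neg_le_neg
    refine Finset.sum_le_sum fun ω _ => ?_
    by_cases h0 : P.p ω = 0
    · rw [h0, zero_mul, zero_mul]
    · apply mul_le_mul_of_nonneg_left _ (P.nn ω)
      have hp : 0 < P.p ω := lt_of_le_of_ne (P.nn ω) (Ne.symm h0)
      apply Real.log_le_log (lt_of_lt_of_le hp (p_le_q P X ω))
      unfold Law.q
      refine Finset.sum_le_sum fun ω' _ => ?_
      by_cases h1 : X ω' = X ω
      · rw [if_pos h1]
        by_cases h2 : P.p ω' = 0
        · rw [h2]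
          split_ifs <;> exact le_rfl
        · rw [if_pos (hdet ω' ω h2 h0 h1)]
      · rw [if_neg h1]
        split_ifs
        · exact P.nn ω'
        · exact le_rfl
  · intro Ω S _ P X
    unfold Law.H
    rw [neg_nonneg]
    refine Finset.sum_nonpos fun ω _ => ?_
    exact mul_nonpos_of_nonneg_of_nonpos (P.nn ω)
      (Real.log_nonpos (q_nonneg P X _) (q_le_one P X _))

end Pool.Agent.TF.H20
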