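import Pool.Agent.TF.Stmts

/-! Squad TF (MP_589914_co): entropy calculus on top of the library (helper20). -/

set_option autoImplicit false

namespace Pool.Agent.TF.H20

variable {Ω : Type} [Fintype Ω] {P : Law Ω}

theorem E_mono {f g : Ω → ℝ} (h : ∀ ω, P.p ω ≠ 0 → f ω ≤ g ω) : P.E f ≤ P.E g := by
  unfold Law.E
  refine Finset.sum_le_sum fun ω _ => ?_
  by_cases h0 : P.p ω = 0
  · rw [h0, zero_mul, zero_mul]
  · exact mul_le_mul_of_nonneg_left (h ω h0) (P.nn ω)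

theorem E_const (c : ℝ) : P.E (fun _ => c) = c := by
  unfold Law.E
  rw [← Finset.sum_mul, P.one, one_mul]

theorem E_le {f : Ω → ℝ} {c : ℝ} (h : ∀ ω, P.p ω ≠ 0 → f ω ≤ c) : P.E f ≤ c := by
  have h1 := E_mono (P := P) h
  rwa [E_const] at h1

theorem eqH (L : Lib) {S T : Type} {X : Ω → S} {Y : Ω → T} (h1 : P.Det X Y) (h2 : P.Det Y X) :
    P.H X = P.H Y :=
  le_antisymm (L.mon.1 _ _ _ P Y X h2) (L.mon.1 _ _ _ P X Y h1)

theorem H_mono (L : Lib) {S T : Type} {X : Ω → S} {Y : Ω → T} (h1 : P.Det X Y) :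
    P.H Y ≤ P.H X := L.mon.1 _ _ _ P X Y h1

theorem C_anti (L : Lib) {S T U : Type} (X : Ω → S) {Y : Ω → T} {Z : Ω → U} (h : P.Det Y Z) :
    P.C X Y ≤ P.C X Z := by
  have h1 := L.sub Ω S T U P X Y Z
  have h2 : P.C X (fun ω => (Y ω, Z ω)) = P.C X Y := by
    unfold Law.C
    have h3 : P.H (fun ω => (X ω, (Y ω, Z ω))) = P.H (fun ω => (X ω, Y ω)) := by
      apply eqH L
      · intro ω ω' _ _ he
        simp only [Prod.mk.injEq] at he ⊢
        exact ⟨he.1, he.2.1⟩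
      · intro ω ω' h0 h0' he
        simp only [Prod.mk.injEq] at he ⊢
        exact ⟨he.1, he.2, h ω ω' h0 h0' he.2⟩
    have h4 : P.H (fun ω => (Y ω, Z ω)) = P.H Y := by
      apply eqH L
      · intro ω ω' _ _ he
        simp only [Prod.mk.injEq] at he
        exact he.1
      · intro ω ω' h0 h0' he
        simp only [Prod.mk.injEq]
        exact ⟨he, h ω ω' h0 h0' he⟩
    rw [h3, h4]
  rw [← h2]
  exact h1

theorem C_mono (L : Lib) {S S' T : Type} {X : Ω → S} {X' : Ω → S'} {Y : Ω → T}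
    (h : P.Det (fun ω => (X ω, Y ω)) X') : P.C X' Y ≤ P.C X Y := by
  unfold Law.C
  have h1 : P.H (fun ω => (X' ω, Y ω)) ≤ P.H (fun ω => (X ω, Y ω)) := by
    apply H_mono L
    intro ω ω' h0 h0' he
    have h2 := h ω ω' h0 h0' he
    simp only [Prod.mk.injEq] at he ⊢
    exact ⟨h2, he.2⟩
  linarith

theorem C_congr (L : Lib) {S T T' : Type} (X : Ω → S) {Y : Ω → T} {Y' : Ω → T'}
    (h : P.Det Y Y') (h' : P.Det Y' Y) : P.C X Y = P.C X Y' :=
  le_antisymm (C_anti L X h) (C_anti L X h')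

theorem C_chain (L : Lib) {S T U : Type} (X : Ω → S) (Y : Ω → T) (Z : Ω → U) :
    P.C (fun ω => (X ω, Y ω)) Z = P.C X (fun ω => (Y ω, Z ω)) + P.C Y Z := by
  unfold Law.C
  have h1 : P.H (fun ω => ((X ω, Y ω), Z ω)) = P.H (fun ω => (X ω, (Y ω, Z ω))) := by
    apply eqH L
    · intro ω ω' _ _ he
      simp only [Prod.mk.injEq] at he ⊢
      exact ⟨he.1.1, he.1.2, he.2⟩
    · intro ω ω' _ _ he
      simp only [Prod.mk.injEq] at he ⊢
      exact ⟨⟨he.1, he.2.1⟩, he.2.2⟩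
  rw [h1]
  ring

theorem C_pair (L : Lib) {S T U : Type} (X : Ω → S) (Y : Ω → T) (Z : Ω → U) :
    P.C (fun ω => (X ω, Y ω)) Z ≤ P.C X Z + P.C Y Z := by
  rw [C_chain L]
  have := L.sub Ω S T U P X Y Z
  linarith

theorem C_nonneg (L : Lib) {S T : Type} (X : Ω → S) (Y : Ω → T) : 0 ≤ P.C X Y := by
  unfold Law.C
  have : P.H Y ≤ P.H (fun ω => (X ω, Y ω)) := by
    apply H_mono L
    intro ω ω' _ _ he
    simp only [Prod.mk.injEq] at he
    exact he.2
  linarith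

theorem C_gib (L : Lib) {S T : Type} (X : Ω → S) (Y : Ω → T) (A : T → Finset S)
    (h : ∀ ω, P.p ω ≠ 0 → X ω ∈ A (Y ω)) :
    P.C X Y ≤ P.E (fun ω => Real.log (A (Y ω)).card) := by
  have h1 := L.gic Ω S T P X Y A (fun _ _ => 1) (fun _ _ _ => zero_le_one)
    (fun ω h0 => ⟨h ω h0, one_pos⟩)
  simp only [Real.log_one, Finset.sum_const, nsmul_eq_mul, mul_one] at h1
  rw [E_const, add_zero] at h1
  exact h1

theorem C_le_card (L : Lib) {S T : Type} [Fintype S] (X : Ω → S) (Y : Ω → T) :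
    P.C X Y ≤ Real.log (Fintype.card S) := by
  have h1 := C_gib (P := P) L X Y (fun _ => (Finset.univ : Finset S)) (fun ω _ => Finset.mem_univ _)
  rw [E_const, Finset.card_univ] at h1
  exact h1

theorem H_gib (L : Lib) {S : Type} (X : Ω → S) (A : Finset S)
    (h : ∀ ω, P.p ω ≠ 0 → X ω ∈ A) : P.H X ≤ Real.log A.card := by
  have h1 := L.gib Ω S P X A (fun _ => 1) (fun _ _ => zero_le_one)
    (fun ω h0 => ⟨h ω h0, one_pos⟩)
  simp only [Real.log_one, Finset.sum_const, nsmul_eq_mul, mul_one] at h1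
  rw [E_const, add_zero] at h1
  exact h1

theorem H_le_card (L : Lib) {S : Type} [Fintype S] (X : Ω → S) :
    P.H X ≤ Real.log (Fintype.card S) := by
  have h1 := H_gib (P := P) L X (Finset.univ : Finset S) (fun ω _ => Finset.mem_univ _)
  rw [Finset.card_univ] at h1
  exact h1

/-- transfer of entropies of functions of `π` -/
theorem H_comp (L : Lib) {Ω' : Type} [Fintype Ω'] {P' : Law Ω'} {π : Ω' → Ω}
    (h : SameLaw P' π P (fun ω => ω)) {S : Type} (f : Ω → S) :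
    P'.H (fun ω => f (π ω)) = P.H f :=
  L.sam.2.1 _ _ _ P' P _ _ (L.sam.1 _ _ _ _ P' P π (fun ω => ω) f h)

theorem C_comp (L : Lib) {Ω' : Type} [Fintype Ω'] {P' : Law Ω'} {π : Ω' → Ω}
    (h : SameLaw P' π P (fun ω => ω)) {S T : Type} (f : Ω → S) (g : Ω → T) :
    P'.C (fun ω => f (π ω)) (fun ω => g (π ω)) = P.C f g :=
  L.sam.2.2.1 _ _ _ _ _ P' P π (fun ω => ω) f g h

end Pool.Agent.TF.H20
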